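import Pool.Agent.N353.PT.Stm

set_option autoImplicit false
set_option linter.unusedVariables false

/-! PT/FRM: all the dominating sets. -/

open Finset
open scoped Classical

namespace Pool.Agent.N199.PT

open Pool.Agent.N353.PT

/-- one side -/
lemma side (h : S_DOM) {V : Type} [Fintype V] (T : V → V → Prop) (hT : Tour T) (c : ℕ)
    (hc : 1 ≤ c) : ∀ (m : ℕ) (Z : Finset V) (v : Fin m → V), Function.Injective v →
    (∀ i, v i ∉ Z) → ∃ (A : Fin m → Finset V) (a : Fin m → V),
      (∀ i j, i ≠ j → Disjoint (A i) (A j)) ∧ (∀ i, Disjoint Z (A i)) ∧ (∀ i, v i ∈ A i) ∧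
      (∀ i, (A i).card ≤ c) ∧ (∀ i, a i ∈ A i) ∧ (∀ i, ∀ x ∈ A i, x ≠ a i → T (a i) x) ∧
      ∀ i, 2 ^ (c - 1) * (univ.filter fun y => y ∉ Z ∧ (∀ j, y ∉ A j) ∧ ∀ x ∈ A i, T y x).card ≤
        (inN T (v i)).card := by
  intro m
  induction m with
  | zero =>
    intro Z v _ _
    exact ⟨fun i => i.elim0, fun i => i.elim0, fun i => i.elim0, fun i => i.elim0,
      fun i => i.elim0, fun i => i.elim0, fun i => i.elim0, fun i => i.elim0, fun i => i.elim0⟩
  | succ m ih =>
    intro Z v hv hZ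
    obtain ⟨A0, a0, hU, hv0, hcard, ha0, hsrc, hcnt⟩ := h V T hT
      (univ \ (Z ∪ univ.image fun i : Fin m => v i.succ)) (v 0) c (by
        rw [mem_sdiff, mem_union, mem_image]
        refine ⟨mem_univ _, ?_⟩
        rintro (h1 | ⟨i, _, hi⟩)
        · exact hZ 0 h1
        · exact absurd (hv hi) (Fin.succ_ne_zero i)) hc
    have hA0 : ∀ x ∈ A0, x ∉ Z ∧ ∀ i : Fin m, v i.succ ≠ x := by
      intro x hx
      have h1 := hU hx
      rw [mem_sdiff, mem_union, mem_image] at h1
      exact ⟨fun h2 => h1.2 (Or.inl h2), fun i hi => h1.2 (Or.inr ⟨i, mem_univ _, hi⟩)⟩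
    obtain ⟨A, a, hd, hZA, hvA, hcA, haA, hsA, hnA⟩ := ih (Z ∪ A0) (fun i => v i.succ)
      (fun i j hij => Fin.succ_injective _ (hv hij)) (by
        intro i hi
        rw [mem_union] at hi
        rcases hi with h1 | h1
        · exact hZ _ h1
        · exact (hA0 _ h1).2 i rfl)
    have hZA' : ∀ i, ∀ x ∈ A i, x ∉ Z ∧ x ∉ A0 := by
      intro i x hx
      have h1 := disjoint_right.1 (hZA i) hx
      rw [mem_union] at h1
      exact ⟨fun h2 => h1 (Or.inl h2), fun h2 => h1 (Or.inr h2)⟩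
    have hlt : ∀ y, (∀ j : Fin (m + 1), y ∉ (Fin.cons A0 A : Fin (m + 1) → Finset V) j) →
        y ∉ A0 ∧ ∀ j, y ∉ A j := by
      intro y hy
      exact ⟨hy 0, fun j => hy j.succ⟩
    refine ⟨Fin.cons A0 A, Fin.cons a0 a, ?_, ?_, ?_, ?_, ?_, ?_, ?_⟩
    · intro i j
      refine Fin.cases ?_ (fun i => ?_) i
      · refine Fin.cases ?_ (fun j => ?_) j
        · intro h1
          exact absurd rfl h1
        · intro _
          rw [Fin.cons_zero, Fin.cons_succ]
          exact disjoint_right.2 fun x hx => (hZA' j x hx).2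
      · refine Fin.cases ?_ (fun j => ?_) j
        · intro _
          rw [Fin.cons_zero, Fin.cons_succ]
          exact disjoint_left.2 fun x hx => (hZA' i x hx).2
        · intro h1
          rw [Fin.cons_succ, Fin.cons_succ]
          exact hd i j fun h2 => h1 (h2 ▸ rfl)
    · refine Fin.cases ?_ fun i => ?_
      · rw [Fin.cons_zero]
        exact disjoint_right.2 fun x hx => (hA0 x hx).1
      · rw [Fin.cons_succ]
        exact disjoint_right.2 fun x hx => (hZA' i x hx).1
    · refine Fin.cases ?_ fun i => ?_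
      · rw [Fin.cons_zero]
        exact hv0
      · rw [Fin.cons_succ]
        exact hvA i
    · refine Fin.cases ?_ fun i => ?_
      · rw [Fin.cons_zero]
        exact hcard
      · rw [Fin.cons_succ]
        exact hcA i
    · refine Fin.cases ?_ fun i => ?_
      · rw [Fin.cons_zero, Fin.cons_zero]
        exact ha0
      · rw [Fin.cons_succ, Fin.cons_succ]
        exact haA i
    · refine Fin.cases ?_ fun i => ?_
      · rw [Fin.cons_zero, Fin.cons_zero]
        exact hsrc
      · rw [Fin.cons_succ, Fin.cons_succ]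
        exact hsA i
    · refine Fin.cases ?_ fun i => ?_
      · rw [Fin.cons_zero]
        refine le_trans (Nat.mul_le_mul_left _ (card_le_card ?_)) hcnt
        intro y hy
        rw [mem_filter] at hy
        obtain ⟨_, hyZ, hyA, hyT⟩ := hy
        obtain ⟨hy0, hyA⟩ := hlt y hyA
        rw [mem_filter, mem_sdiff, mem_sdiff, mem_union, mem_image]
        refine ⟨⟨⟨mem_univ _, ?_⟩, hy0⟩, hyT⟩
        rintro (h1 | ⟨i, _, hi⟩)
        · exact hyZ h1
        · exact hyA i (hi ▸ hvA i)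
      · rw [Fin.cons_succ]
        refine le_trans (Nat.mul_le_mul_left _ (card_le_card ?_)) (hnA i)
        intro y hy
        rw [mem_filter] at hy
        obtain ⟨_, hyZ, hyA, hyT⟩ := hy
        obtain ⟨hy0, hyA⟩ := hlt y hyA
        rw [mem_filter, mem_union]
        exact ⟨mem_univ _, fun h1 => h1.elim hyZ hy0, hyA, hyT⟩

/-- enumeration -/
lemma enum {V : Type} (X : Finset V) (m : ℕ) (h : X.card = m) :
    ∃ v : Fin m → V, Function.Injective v ∧ (∀ i, v i ∈ X) ∧ ∀ x ∈ X, ∃ i, v i = x := by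
  refine ⟨fun i => ((X.equivFinOfCardEq h).symm i : V), ?_, fun i => ?_, fun x hx => ?_⟩
  · intro i j hij
    exact (X.equivFinOfCardEq h).symm.injective (Subtype.ext hij)
  · exact ((X.equivFinOfCardEq h).symm i).2
  · exact ⟨X.equivFinOfCardEq h ⟨x, hx⟩, by simp⟩

/-- the count -/
lemma count {V : Type} (m c δ : ℕ) (hm : 1 ≤ m) (h8 : 8 * m ≤ 2 ^ (c - 1))
    (E : Finset V) (S : Fin m → Finset V) (hE : ∀ y ∈ E, ∃ i, y ∈ S i)
    (hS : ∀ i, 2 ^ (c - 1) * (S i).card ≤ δ) : 8 * E.card ≤ δ := by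
  have h1 : E.card ≤ ∑ i, (S i).card := by
    refine le_trans (card_le_card ?_) card_biUnion_le
    intro y hy
    rw [mem_biUnion]
    obtain ⟨i, hi⟩ := hE y hy
    exact ⟨i, mem_univ _, hi⟩
  have h2 : ∀ i : Fin m, m * (8 * (S i).card) ≤ δ := by
    intro i
    calc m * (8 * (S i).card) = 8 * m * (S i).card := by ring
      _ ≤ 2 ^ (c - 1) * (S i).card := Nat.mul_le_mul_right _ h8
      _ ≤ δ := hS i
  have h3 : m * (8 * E.card) ≤ m * δ := by
    calc m * (8 * E.card)
        ≤ m * (8 * ∑ i, (S i).card) :=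
          Nat.mul_le_mul_left _ (Nat.mul_le_mul_left _ h1)
      _ = ∑ i : Fin m, m * (8 * (S i).card) := by
          rw [mul_sum, mul_sum]
      _ ≤ ∑ _i : Fin m, δ := sum_le_sum fun i _ => h2 i
      _ = m * δ := by rw [sum_const, card_univ, Fintype.card_fin, smul_eq_mul]
  exact Nat.le_of_mul_le_mul_left h3 hm

/-- PT/FRM -/
theorem t_FRM (h : S_DOM) : S_FRM := by
  intro V _ T hT X0 m c XA XB δA δB hm h8 hL
  have hc : 1 ≤ c := by
    by_contra h1
    have h2 : c = 0 := by omega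
    rw [h2] at h8
    norm_num at h8
    omega
  obtain ⟨v, hvi, hvm, hvs⟩ := enum XA m hL.cA
  obtain ⟨w, hwi, hwm, hws⟩ := enum XB m hL.cB
  obtain ⟨A, a, hdA, hZA, hvA, hcA, haA, hsA, hnA⟩ := side h T hT c hc m (X0 ∪ XB) v hvi (by
    intro i hi
    rw [mem_union] at hi
    rcases hi with h1 | h1
    · exact disjoint_left.1 hL.dA h1 (hvm i)
    · exact disjoint_left.1 hL.dAB (hvm i) h1)
  have hT' : Tour (fun u v => T v u) := ⟨hT.1, fun u v huv => hT.2 v u huv.symm⟩
  obtain ⟨B, b, hdB, hZB, hwB, hcB, hbB, hsB, hnB⟩ := side h (fun u v => T v u) hT' c hc m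
    (X0 ∪ univ.biUnion A) w hwi (by
    intro i hi
    rw [mem_union, mem_biUnion] at hi
    rcases hi with h1 | ⟨j, _, h1⟩
    · exact disjoint_left.1 hL.dB h1 (hwm i)
    · exact disjoint_left.1 (hZA j) (mem_union_right _ (hwm i)) h1)
  obtain ⟨D, hD⟩ : ∃ D, D = X0 ∪ (univ.biUnion A ∪ univ.biUnion B) := ⟨_, rfl⟩
  have hDm : ∀ y, y ∉ D → y ∉ X0 ∧ (∀ i, y ∉ A i) ∧ ∀ i, y ∉ B i := by
    intro y hy
    rw [hD, mem_union, mem_union, mem_biUnion, mem_biUnion] at hy
    refine ⟨fun h1 => hy (Or.inl h1), fun i h1 => hy (Or.inr (Or.inl ⟨i, mem_univ _, h1⟩)),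
      fun i h1 => hy (Or.inr (Or.inr ⟨i, mem_univ _, h1⟩))⟩
  have hDA : ∀ y, y ∉ D → y ∉ XA := by
    intro y hy h1
    obtain ⟨i, rfl⟩ := hvs y h1
    exact (hDm _ hy).2.1 i (hvA i)
  have hDB : ∀ y, y ∉ D → y ∉ XB := by
    intro y hy h1
    obtain ⟨i, rfl⟩ := hws y h1
    exact (hDm _ hy).2.2 i (hwB i)
  refine ⟨A, B, a, b, D, univ.filter fun y => y ∉ D ∧ ∃ i, ∀ x ∈ A i, T y x,
    univ.filter fun y => y ∉ D ∧ ∃ i, ∀ x ∈ B i, T x y, ?_, ?_⟩
  · refine
    { hD := hD
      dA := hdA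
      dB := hdB
      dAB := fun i j => ?_
      dXA := fun i => (disjoint_union_left.1 (hZA i)).1
      dXB := fun i => (disjoint_union_left.1 (hZB i)).1
      aA := haA
      bB := hbB
      src := hsA
      snk := hsB
      domA := ?_
      domB := ?_
      eA := ?_
      eB := ?_
      le := hL.le
      degA := fun y hy => hL.hiA y (hDm y hy).1 (hDA y hy)
      degB := fun y hy => hL.hiB y (hDm y hy).1 (hDA y hy) (hDB y hy) }
    · have h1 := (disjoint_union_left.1 (hZB j)).2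
      exact disjoint_left.2 fun x hx hx' =>
        disjoint_left.1 h1 (mem_biUnion.2 ⟨i, mem_univ _, hx⟩) hx'
    · intro y hy hyE i
      by_contra h1
      push Not at h1
      apply hyE
      rw [mem_filter]
      refine ⟨mem_univ _, hy, i, fun x hx => ?_⟩
      have hne : y ≠ x := fun h2 => (hDm y hy).2.1 i (h2 ▸ hx)
      exact (hT.2 y x hne).2 (h1 x hx)
    · intro y hy hyE i
      by_contra h1
      push Not at h1
      apply hyE
      rw [mem_filter]
      refine ⟨mem_univ _, hy, i, fun x hx => ?_⟩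
      have hne : x ≠ y := fun h2 => (hDm y hy).2.2 i (h2 ▸ hx)
      exact (hT.2 x y hne).2 (h1 x hx)
    · refine count m c δA hm h8 _ _ ?_ fun i => (hnA i).trans (hL.loA _ (hvm i))
      intro y hy
      rw [mem_filter] at hy
      obtain ⟨_, hy, i, hi⟩ := hy
      refine ⟨i, mem_filter.2 ⟨mem_univ _, ?_, (hDm y hy).2.1, hi⟩⟩
      rw [mem_union]
      exact fun h1 => h1.elim (hDm y hy).1 (hDB y hy)
    · refine count m c δB hm h8 _ _ ?_ fun i => (hnB i).trans (hL.loB _ (hwm i))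
      intro y hy
      rw [mem_filter] at hy
      obtain ⟨_, hy, i, hi⟩ := hy
      refine ⟨i, mem_filter.2 ⟨mem_univ _, ?_, (hDm y hy).2.2, hi⟩⟩
      rw [mem_union, mem_biUnion]
      rintro (h1 | ⟨j, _, h1⟩)
      · exact (hDm y hy).1 h1
      · exact (hDm y hy).2.1 j h1
  · have h1 : ∀ C : Fin m → Finset V, (∀ i, (C i).card ≤ c) → (univ.biUnion C).card ≤ m * c := by
      intro C hC
      refine card_biUnion_le.trans ((sum_le_sum fun i _ => hC i).trans ?_)
      rw [sum_const, card_univ, Fintype.card_fin, smul_eq_mul]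
    rw [hD]
    have h2 := card_union_le X0 (univ.biUnion A ∪ univ.biUnion B)
    have h3 := card_union_le (univ.biUnion A) (univ.biUnion B)
    have h4 := h1 A hcA
    have h5 := h1 B hcB
    have h6 : 2 * m * c = m * c + m * c := by ring
    rw [h6]
    omega

end Pool.Agent.N199.PT
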